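import Pool.Agent.X145.UC.K4

/-!
# MP_879d0a_co, Q1: the minimal growth rate of universal covers in `𝒢_{2,3}` (full answer)

The minimum of `ρ(G)` over `𝒢_{2,3}` is `ρ(K₄⁻)`, the real root `1.5213…` of `x³ = x + 2`.

Proof of the lower bound. Put `x₀ = 1/ρ(K₄⁻)`, `α = 4 x₀³` and give weight `α` to the edges joining two vertices of
degree 3 and weight 1 to all other edges. With `M(v)` the sum of the weights at `v`, the numbers
`s(u,v,x) = m(uv) + m(vx) - M(v)/2` are the joint weights of a stationary reversible non-backtracking Markov chain on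
the directed edges. The number of walks is at least the exponential of the entropy of the chain, and a charging
argument (every vertex of degree 2 gives `0.448 - log ρ(K₄⁻)` to each neighbour of degree 3) reduces the comparison
with `log ρ(K₄⁻)` to four local inequalities, with equality for the type (3; 3, 2, 2) of `K₄⁻`.
-/

set_option autoImplicit false

namespace Pool.Agent.Results.MP_879d0a_co.MinimalGrowth

open Filter Topology Pool.Agent.X145.UC

theorem result :
    InClass K4minus ∧ 1 < rho K4minus ∧ rho K4minus ^ 3 = rho K4minus + 2 ∧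
      ∀ (V : Type) [Fintype V] (G : SimpleGraph V), InClass G →
        Tendsto (fun ℓ : ℕ => (num G ℓ : ℝ) ^ ((1:ℝ) / ℓ)) atTop (𝓝 (rho G)) ∧ rho K4minus ≤ rho G := by
  obtain ⟨r, h1, hr⟩ := exists_root
  have hk := rho_K4 r h1 hr
  refine ⟨K4_inClass, by rw [hk]; exact h1, by rw [hk]; exact hr, ?_⟩
  intro V _ G hG
  exact ⟨rho_tendsto G (num_pos hG), by rw [hk]; exact rho_ge hG r h1 hr⟩

end Pool.Agent.Results.MP_879d0a_co.MinimalGrowth
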